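import Pool.Agent.J6H17.LM.Plain

/-!
# The classes `LP`, `LNP` and `LΠ₁` are different, also relative to every oracle

`Oracle`, `Alg` and `Alg.out` are in `Pool.Agent.H628R3.RO.Defs` (an oracle is a function
`List Bool → Bool`, an `Alg` is a polynomial-time oracle algorithm), `randomOracle` (there as well)
is the uniform product measure, `pairBits` is the pairing of strings and `join Z Y` is `Z ⊕ Y`.
`Fam`, `IsRelP`, `IsRelNP`, `IsRelCoNP`, `LM.meas` and `LM.Lm` (relative to an oracle) are in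
`Pool.Agent.J6H17.LM.Main`, and `LM0.meas` and `LM0.Lm` (without an oracle) are in
`Pool.Agent.J6H17.LM.Plain`.
-/

set_option autoImplicit false

namespace Pool.Agent.Results.MP_b7b141_lc.EveryOracle

open Pool.Agent.H628R3.RO Pool.Agent.J6H17
open Pool.Agent.J6H17.LM (Fam IsRelP IsRelNP IsRelCoNP)

/-- The class `LP`: all `Lm (B)` for relativized `P` languages `B`. -/
def LP : Set (Set (List Bool × ℕ × ℕ)) := {L | ∃ B : Fam, IsRelP B ∧ L = LM0.Lm B}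

/-- The class `LNP`. -/
def LNP : Set (Set (List Bool × ℕ × ℕ)) := {L | ∃ B : Fam, IsRelNP B ∧ L = LM0.Lm B}

/-- The class `LΠ₁`. -/
def LPi : Set (Set (List Bool × ℕ × ℕ)) := {L | ∃ B : Fam, IsRelCoNP B ∧ L = LM0.Lm B}

/-- The class `LP` relative to `Y`. -/
def LPrel (Y : Oracle) : Set (Set (List Bool × ℕ × ℕ)) :=
  {L | ∃ B : Fam, IsRelP B ∧ L = LM.Lm Y B}

/-- The class `LNP` relative to `Y`. -/
def LNPrel (Y : Oracle) : Set (Set (List Bool × ℕ × ℕ)) :=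
  {L | ∃ B : Fam, IsRelNP B ∧ L = LM.Lm Y B}

/-- The class `LΠ₁` relative to `Y`. -/
def LPirel (Y : Oracle) : Set (Set (List Bool × ℕ × ℕ)) :=
  {L | ∃ B : Fam, IsRelCoNP B ∧ L = LM.Lm Y B}

/-- The class `LP` differs from `LNP` and from `LΠ₁`, and none of `LNP` and `LΠ₁` contains the
other; the same is true relative to every oracle `Y`. -/
theorem result :
    (LP ≠ LNP ∧ LP ≠ LPi ∧ ¬ LNP ⊆ LP ∧ ¬ LPi ⊆ LP ∧ ¬ LNP ⊆ LPi ∧ ¬ LPi ⊆ LNP) ∧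
    ∀ Y : Oracle, LPrel Y ≠ LNPrel Y ∧ LPrel Y ≠ LPirel Y ∧ ¬ LNPrel Y ⊆ LPrel Y ∧
      ¬ LPirel Y ⊆ LPrel Y ∧ ¬ LNPrel Y ⊆ LPirel Y ∧ ¬ LPirel Y ⊆ LNPrel Y := by
  constructor
  · have h1 : ¬ LNP ⊆ LP := by
      intro h
      obtain ⟨B, hB, hL⟩ := h ⟨LM0.B₀, LM0.isRelNP_B₀, rfl⟩
      exact LM0.sep_P hB hL
    have h2 : ¬ LPi ⊆ LP := by
      intro h
      obtain ⟨B, hB, hL⟩ := h ⟨_, LM0.isRelCoNP_compl, rfl⟩
      exact LM0.sep_P' hB hL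
    refine ⟨fun h => h1 h.ge, fun h => h2 h.ge, h1, h2, ?_, ?_⟩
    · intro h
      obtain ⟨B, hB, hL⟩ := h ⟨LM0.B₀, LM0.isRelNP_B₀, rfl⟩
      exact LM0.sep_coNP hB hL
    · intro h
      obtain ⟨B, hB, hL⟩ := h ⟨_, LM0.isRelCoNP_compl, rfl⟩
      exact LM0.sep_NP hB hL
  · intro Y
    have h1 : ¬ LNPrel Y ⊆ LPrel Y := by
      intro h
      obtain ⟨B, hB, hL⟩ := h ⟨LM.B₀, LM.isRelNP_B₀, rfl⟩
      exact LM.sep_P hB Y hL
    have h2 : ¬ LPirel Y ⊆ LPrel Y := by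
      intro h
      obtain ⟨B, hB, hL⟩ := h ⟨_, LM.isRelCoNP_compl, rfl⟩
      exact LM.sep_P' hB Y hL
    refine ⟨fun h => h1 h.ge, fun h => h2 h.ge, h1, h2, ?_, ?_⟩
    · intro h
      obtain ⟨B, hB, hL⟩ := h ⟨LM.B₀, LM.isRelNP_B₀, rfl⟩
      exact LM.sep_coNP hB Y hL
    · intro h
      obtain ⟨B, hB, hL⟩ := h ⟨_, LM.isRelCoNP_compl, rfl⟩
      exact LM.sep_NP hB Y hL

end Pool.Agent.Results.MP_b7b141_lc.EveryOracle
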